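import Pool.Agent.W662.KKS.Stmts3
import Pool.Agent.W459.KKS.Cut

/-!
Project KKS: corners of von Neumann algebras.
-/

set_option autoImplicit false
set_option linter.unusedSectionVars false

open scoped InnerProductSpace
open Pool.Agent.Helper278 Pool.Agent.W662.KKS Pool.Agent.W459.KKS

namespace Pool.Agent.W177.KKS

theorem crn : S_CRN := by
  intro H _ _ _ e he1 he2
  obtain ⟨K, i1, i2, i3, V, hV, hVe, hcut⟩ := cut H e he1 he2
  refine ⟨K, i1, i2, i3, V, hV, hVe, ?_⟩
  intro M heM
  obtain ⟨L, hL, -⟩ := hcut M.commutant (by rw [VonNeumannAlgebra.commutant_commutant]; exact heM)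
  -- the adjoint of `V`
  obtain ⟨W, hW⟩ : ∃ W : H →L[ℂ] K, W = ContinuousLinearMap.adjoint V := ⟨_, rfl⟩
  have hWV : ∀ k, W (V k) = k := by
    have h1 := (ContinuousLinearMap.norm_map_iff_adjoint_comp_self V).1 hV
    intro k
    rw [hW]
    exact congrArg (fun A : K →L[ℂ] K => A k) h1
  have heV : ∀ k, e (V k) = V k := fun k => (hVe _).2 ⟨k, rfl⟩
  have hVW1 : ∀ v, V (W (e v)) = e v := by
    intro v
    have h1 : e (e v) = e v := congrArg (fun A : H →L[ℂ] H => A v) he2
    obtain ⟨k, hk⟩ := (hVe _).1 h1
    rw [← hk, hWV]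
  have hWe : ∀ v, W (e v) = W v := by
    intro v
    refine ext_inner_left ℂ fun k => ?_
    rw [hW, ContinuousLinearMap.adjoint_inner_right, ContinuousLinearMap.adjoint_inner_right]
    have h1 : ⟪V k, e v⟫_ℂ = ⟪e (V k), v⟫_ℂ := by
      have h2 := ContinuousLinearMap.adjoint_inner_left e v (V k)
      rw [← ContinuousLinearMap.star_eq_adjoint, he1] at h2
      exact h2.symm
    rw [h1, heV]
  have hVW : ∀ v, V (W v) = e v := by
    intro v
    rw [← hWe, hVW1]
  have hinj : Function.Injective V := by
    intro a b hab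
    rw [← hWV a, hab, hWV]
  refine ⟨L.commutant, ?_, ?_⟩
  · intro z
    constructor
    · intro hz
      have hz' := (mem_comm L z).1 hz
      refine ⟨V ∘L z ∘L W, ?_, ?_, ?_⟩
      · apply mem_of_comm
        intro r hr
        have her : ∀ v, r (e v) = e (r v) := by
          intro v
          have h1 := (mem_comm M r).1 hr e heM
          exact (congrArg (fun A : H →L[ℂ] H => A v) h1).symm
        have hzr : W ∘L r ∘L V ∈ L := by
          refine (hL _).2 ⟨r, hr, fun k => ?_⟩
          change V (W (r (V k))) = r (V k)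
          rw [hVW, ← her, heV]
        have h2 := hz' _ hzr
        ext v
        change r (V (z (W v))) = V (z (W (r v)))
        have h3 : ∀ k, W (r (V (z k))) = z (W (r (V k))) := fun k =>
          congrArg (fun A : K →L[ℂ] K => A k) h2
        have h4 := h3 (W v)
        rw [hVW, her, hWe] at h4
        rw [← h4, hVW, ← her, heV]
      · ext v
        change e (V (z (W (e v)))) = V (z (W v))
        rw [heV, hWe]
      · intro k
        change V (z k) = V (z (W (V k)))
        rw [hWV]
    · rintro ⟨x, hx, -, hxz⟩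
      apply (mem_comm L z).2
      intro z' hz'
      obtain ⟨r, hr, hrz⟩ := (hL z').1 hz'
      have hrx := (mem_comm M r).1 hr x hx
      ext k
      apply hinj
      change V (z' (z k)) = V (z (z' k))
      rw [hrz, hxz, hxz, hrz]
      exact (congrArg (fun A : H →L[ℂ] H => A (V k)) hrx).symm
  · intro z
    rw [VonNeumannAlgebra.commutant_commutant]
    exact hL z

end Pool.Agent.W177.KKS
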