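import Pool.Agent.W662.KKS.Stmts

/-!
# KKS-LF1: one step of the construction of the group
-/

set_option autoImplicit false
set_option linter.unusedSectionVars false
set_option linter.unusedVariables false
set_option linter.unusedSimpArgs false

open scoped InnerProductSpace
open Pool.Agent.Helper278 Pool.Agent.W662.KKS

namespace Pool.Agent.W177.KKS

variable {H : Type} [NormedAddCommGroup H] [InnerProductSpace ℂ H] [CompleteSpace H]

/-- an operator with `star a * a` a projection -/
theorem pi_right {a q : H →L[ℂ] H} (h : star a * a = q) (hq : q * q = q) : a * q = a := by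
  have hs : star q = q := by rw [← h, star_mul, star_star]
  have h1 : star (a * q - a) * (a * q - a) = 0 := by
    rw [star_sub, star_mul, hs]
    have e1 : (q * star a - star a) * (a * q - a) =
        q * (star a * a) * q - q * (star a * a) - (star a * a) * q + star a * a := by
      noncomm_ring
    rw [e1, h, hq, hq]
    abel
  have h2 : a * q - a = 0 := (CStarRing.star_mul_self_eq_zero_iff _).1 h1
  exact sub_eq_zero.1 h2

/-- the von Neumann algebra of the operators commuting with a set and its adjoints -/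
noncomputable def cent (S : Set (H →L[ℂ] H)) : VonNeumannAlgebra H where
  toStarSubalgebra := StarSubalgebra.centralizer ℂ S
  centralizer_centralizer' := by
    show Set.centralizer (Set.centralizer ((StarSubalgebra.centralizer ℂ S :
      StarSubalgebra ℂ (H →L[ℂ] H)) : Set (H →L[ℂ] H))) = ((StarSubalgebra.centralizer ℂ S :
      StarSubalgebra ℂ (H →L[ℂ] H)) : Set (H →L[ℂ] H))
    rw [StarSubalgebra.coe_centralizer, Set.centralizer_centralizer_centralizer]

theorem mem_cent {S : Set (H →L[ℂ] H)} {x : H →L[ℂ] H} :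
    x ∈ cent S ↔ ∀ g ∈ S, g * x = x * g ∧ star g * x = x * star g := by
  show x ∈ StarSubalgebra.centralizer ℂ S ↔ _
  exact StarSubalgebra.mem_centralizer_iff ℂ

section ring
variable {R : Type} [Ring R]

/-- four times the average over the group generated by `s`, `t` -/
def E4 (s t x : R) : R := x + s * x * s + t * x * t + t * s * x * (s * t)

theorem ts_left {s t : R} (h : s * t = -(t * s)) (y : R) : t * (s * y) = -(s * (t * y)) := by
  rw [← mul_assoc, ← mul_assoc, h, neg_mul, neg_neg]

theorem ts' {s t : R} (h : s * t = -(t * s)) : t * s = -(s * t) := by rw [h, neg_neg]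

theorem ss_left {s : R} (h : s * s = 1) (y : R) : s * (s * y) = y := by
  rw [← mul_assoc, h, one_mul]

theorem E4_comm_s {s t : R} (hs : s * s = 1) (ht : t * t = 1) (h : s * t = -(t * s)) (x : R) :
    E4 s t x * s = s * E4 s t x := by
  simp only [E4, mul_add, add_mul, mul_assoc, ts_left h, ts' h, ss_left hs, ss_left ht, hs, ht,
    neg_mul, mul_neg, mul_one, neg_neg]
  abel

theorem E4_comm_t {s t : R} (hs : s * s = 1) (ht : t * t = 1) (h : s * t = -(t * s)) (x : R) :
    E4 s t x * t = t * E4 s t x := by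
  simp only [E4, mul_add, add_mul, mul_assoc, ts_left h, ts' h, ss_left hs, ss_left ht, hs, ht,
    neg_mul, mul_neg, mul_one, neg_neg]
  abel

theorem E4_expand {s t : R} (hs : s * s = 1) (ht : t * t = 1) (h : s * t = -(t * s)) (x : R) :
    E4 s t x + E4 s t (x * s) * s + E4 s t (x * t) * t + E4 s t (x * (t * s)) * (s * t) =
      4 • x := by
  simp only [E4, mul_add, add_mul, mul_assoc, ts_left h, ts' h, ss_left hs, ss_left ht, hs, ht,
    neg_mul, mul_neg, mul_one, neg_neg]
  abel

variable {a b p : R}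

theorem alg_ss (hpp : p * p = p) : (p + p - 1) * (p + p - 1) = 1 := by
  simp only [mul_add, add_mul, mul_sub, sub_mul, hpp, mul_one, one_mul]
  abel

theorem alg_tt (hba : b * a = p) (hab : a * b = 1 - p) (haa : a * a = 0) (hbb : b * b = 0) :
    (a + b) * (a + b) = 1 := by
  simp only [mul_add, add_mul, hba, hab, haa, hbb]
  abel

theorem alg_st (hap : a * p = a) (hpa : p * a = 0) (hbp : b * p = 0) (hpb : p * b = b) :
    (p + p - 1) * (a + b) = -((a + b) * (p + p - 1)) := by
  simp only [mul_add, add_mul, mul_sub, sub_mul, hap, hpa, hbp, hpb, mul_one, one_mul]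
  abel

theorem alg_x (x : R) : x + (p + p - 1) * x * (p + p - 1) =
    2 • (p * x * p + (1 - p) * x * (1 - p)) := by
  simp only [mul_add, add_mul, mul_sub, sub_mul, mul_one, one_mul, mul_assoc, two_smul]
  abel

theorem alg_t (hap : a * p = a) (hpa : p * a = 0) (hbp : b * p = 0) (hpb : p * b = b) (x : R) :
    (a + b) * (p * x * p + (1 - p) * x * (1 - p)) * (a + b) = a * x * b + b * x * a := by
  have hap' : ∀ y, a * (p * y) = a * y := fun y => by rw [← mul_assoc, hap]
  have hbp' : ∀ y, b * (p * y) = 0 := fun y => by rw [← mul_assoc, hbp, zero_mul]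
  simp only [mul_add, add_mul, mul_sub, sub_mul, mul_assoc, mul_one, one_mul, hap', hbp', hpa,
    hpb, mul_zero, zero_mul]
  abel

theorem alg_prod (hpa : p * a = 0) (hpb : p * b = b) (x : R) :
    (p * x * p + (1 - p) * x * (1 - p)) * (a * x * b + b * x * a) =
      p * x * b * x * a + (1 - p) * x * a * x * b := by
  have hpa' : ∀ y, p * (a * y) = 0 := fun y => by rw [← mul_assoc, hpa, zero_mul]
  have hpb' : ∀ y, p * (b * y) = b * y := fun y => by rw [← mul_assoc, hpb]
  simp only [mul_add, add_mul, mul_sub, sub_mul, mul_assoc, mul_one, one_mul, hpa', hpb',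
    mul_zero]
  abel

end ring

/-! ### the vector functional -/

/-- the vector functional -/
noncomputable def tr (ξ : H) (x : H →L[ℂ] H) : ℂ := ⟪ξ, x ξ⟫_ℂ

theorem tr_add (ξ : H) (x y : H →L[ℂ] H) : tr ξ (x + y) = tr ξ x + tr ξ y := by
  simp [tr, inner_add_right]

theorem tr_sub (ξ : H) (x y : H →L[ℂ] H) : tr ξ (x - y) = tr ξ x - tr ξ y := by
  simp [tr, inner_sub_right]

theorem tr_smul (ξ : H) (c : ℂ) (x : H →L[ℂ] H) : tr ξ (c • x) = c * tr ξ x := by
  simp [tr, inner_smul_right]

theorem tr_star_mul (ξ : H) (x y : H →L[ℂ] H) : tr ξ (star x * y) = ⟪x ξ, y ξ⟫_ℂ := by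
  show ⟪ξ, star x (y ξ)⟫_ℂ = _
  rw [ContinuousLinearMap.star_eq_adjoint, ContinuousLinearMap.adjoint_inner_right]

theorem norm_sq_eq (ξ : H) (x : H →L[ℂ] H) : ‖x ξ‖ ^ 2 = (tr ξ (star x * x)).re := by
  rw [tr_star_mul, inner_self_eq_norm_sq_to_K]
  norm_cast

theorem smul_mem' (M : VonNeumannAlgebra H) (c : ℂ) {x : H →L[ℂ] H} (hx : x ∈ M) : c • x ∈ M :=
  M.toStarSubalgebra.smul_mem hx c

/-- invariance of the vector norm under symmetries -/
theorem norm_conj {M : VonNeumannAlgebra H} {ξ : H}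
    (htr : ∀ x ∈ M, ∀ y ∈ M, tr ξ (x * y) = tr ξ (y * x)) {u x : H →L[ℂ] H} (hu : u ∈ M)
    (hx : x ∈ M) (hsu : star u = u) (huu : u * u = 1) : ‖(u * x * u) ξ‖ ^ 2 = ‖x ξ‖ ^ 2 := by
  rw [norm_sq_eq, norm_sq_eq]
  have h1 : star (u * x * u) * (u * x * u) = u * (star x * x * u) := by
    rw [star_mul, star_mul, hsu]
    calc u * (star x * u) * (u * x * u) = u * (star x * (u * u) * x * u) := by noncomm_ring
      _ = u * (star x * x * u) := by rw [huu, mul_one]
  have h2 : star x * x * u * u = star x * x := by rw [mul_assoc, huu, mul_one]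
  rw [h1, htr u hu _ (mul_mem (mul_mem (star_mem hx) hx) hu), h2]

/-- the algebra of the elements commuting with `s`, `t` is a factor -/
theorem factor {M M₁ : VonNeumannAlgebra H} {ξ : H}
    (hM : IsIIOneFactor M (fun x : Elt M => ⟪ξ, (x : H →L[ℂ] H) ξ⟫_ℂ))
    {s t : H →L[ℂ] H} (hsM : s ∈ M) (htM : t ∈ M) (hs : s * s = 1) (ht : t * t = 1)
    (hst : s * t = -(t * s)) (hM₁ : ∀ x : H →L[ℂ] H, x ∈ M₁ ↔ x ∈ M ∧ x * s = s * x ∧ x * t = t * x) :
    IsIIOneFactor M₁ (fun x : Elt M₁ => ⟪ξ, (x : H →L[ℂ] H) ξ⟫_ℂ) := by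
  have hE : ∀ x ∈ M, (4 : ℂ)⁻¹ • E4 s t x ∈ M₁ := by
    intro x hx
    have h1 : E4 s t x ∈ M := by
      unfold E4
      exact add_mem (add_mem (add_mem hx (mul_mem (mul_mem hsM hx) hsM))
        (mul_mem (mul_mem htM hx) htM))
        (mul_mem (mul_mem (mul_mem htM hsM) hx) (mul_mem hsM htM))
    refine (hM₁ _).2 ⟨smul_mem' M _ h1, ?_, ?_⟩
    · rw [smul_mul_assoc, mul_smul_comm, E4_comm_s hs ht hst]
    · rw [smul_mul_assoc, mul_smul_comm, E4_comm_t hs ht hst]
  have hx4 : ∀ x, (4 : ℂ)⁻¹ • E4 s t x + (4 : ℂ)⁻¹ • E4 s t (x * s) * s +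
      (4 : ℂ)⁻¹ • E4 s t (x * t) * t + (4 : ℂ)⁻¹ • E4 s t (x * (t * s)) * (s * t) = x := by
    intro x
    have h1 := E4_expand hs ht hst x
    rw [smul_mul_assoc, smul_mul_assoc, smul_mul_assoc, ← smul_add, ← smul_add, ← smul_add, h1]
    rw [← Nat.cast_smul_eq_nsmul ℂ, smul_smul]
    norm_num
  refine ⟨?_, ?_, ⟨?_, ?_, ?_⟩, ?_⟩
  · intro z hz hzc
    obtain ⟨hzM, hzs, hzt⟩ := (hM₁ z).1 hz
    refine hM.center z hzM fun x hx => ?_
    have c1 := hzc _ (hE x hx)
    have c2 := hzc _ (hE (x * s) (mul_mem hx hsM))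
    have c3 := hzc _ (hE (x * t) (mul_mem hx htM))
    have c4 := hzc _ (hE (x * (t * s)) (mul_mem hx (mul_mem htM hsM)))
    have c5 : z * (s * t) = s * t * z := by
      rw [← mul_assoc, hzs, mul_assoc, hzt, mul_assoc]
    rw [← hx4 x]
    have key : ∀ (A g : H →L[ℂ] H), z * A = A * z → z * g = g * z → z * (A * g) = A * g * z := by
      intro A g h1 h2
      rw [← mul_assoc, h1, mul_assoc, h2, mul_assoc]
    rw [mul_add, mul_add, mul_add, add_mul, add_mul, add_mul, c1, key _ _ c2 hzs, key _ _ c3 hzt,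
      key _ _ c4 c5]
  · intro hfin
    apply hM.infinite
    have hle : ∀ x ∈ M₁, x ∈ M := fun x hx => ((hM₁ x).1 hx).1
    let g : (Elt M₁ × Elt M₁ × Elt M₁ × Elt M₁) →ₗ[ℂ] Elt M :=
      { toFun := fun q => ⟨(q.1 : H →L[ℂ] H) + (q.2.1 : H →L[ℂ] H) * s +
          (q.2.2.1 : H →L[ℂ] H) * t + (q.2.2.2 : H →L[ℂ] H) * (s * t),
          add_mem (add_mem (add_mem (hle _ q.1.2) (mul_mem (hle _ q.2.1.2) hsM))
            (mul_mem (hle _ q.2.2.1.2) htM)) (mul_mem (hle _ q.2.2.2.2) (mul_mem hsM htM))⟩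
        map_add' := fun q q' => by
          apply Subtype.ext
          simp only [Prod.fst_add, Prod.snd_add, AddMemClass.coe_add, add_mul]
          abel
        map_smul' := fun c q => by
          apply Subtype.ext
          simp only [Prod.smul_fst, Prod.smul_snd, SetLike.val_smul, smul_mul_assoc,
            RingHom.id_apply, smul_add] }
    have hg : Function.Surjective g := by
      intro x
      refine ⟨⟨⟨_, hE x x.2⟩, ⟨_, hE (x * s) (mul_mem x.2 hsM)⟩, ⟨_, hE (x * t) (mul_mem x.2 htM)⟩,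
        ⟨_, hE (x * (t * s)) (mul_mem x.2 (mul_mem htM hsM))⟩⟩, ?_⟩
      apply Subtype.ext
      exact hx4 x
    exact Module.Finite.of_surjective g hg
  · have := hM.trace.one
    simpa using this
  · intro x y
    have := hM.trace.tracial ⟨x, ((hM₁ _).1 x.2).1⟩ ⟨y, ((hM₁ _).1 y.2).1⟩
    exact this
  · intro x hx
    have h0 : (⟨(x : H →L[ℂ] H), ((hM₁ _).1 x.2).1⟩ : Elt M) = 0 :=
      hM.trace.faithful ⟨x, ((hM₁ _).1 x.2).1⟩ hx
    apply Subtype.ext
    have h1 := congrArg Subtype.val h0
    exact h1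
  · refine ⟨fun k => if k = 0 then ξ else 0, ?_, ?_⟩
    · refine summable_of_ne_finset_zero (s := {0}) fun k hk => ?_
      rw [Finset.mem_singleton] at hk
      simp [hk]
    · intro x
      rw [tsum_eq_single 0]
      · simp
      · intro k hk
        simp [hk]

/-- the main inequality -/
theorem ineq {M : VonNeumannAlgebra H} {ξ : H}
    (htr : ∀ x ∈ M, ∀ y ∈ M, tr ξ (x * y) = tr ξ (y * x)) {a p x : H →L[ℂ] H} (ha : a ∈ M)
    (hp : p ∈ M) (hx : x ∈ M) (hsx : star x = x) (hsp : star p = p) (hpp : p * p = p)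
    (hba : star a * a = p) (hab : a * star a = 1 - p) {η : ℝ}
    (hη : (tr ξ (p * x * p * (star a * x * a))).re ≤ 2 * η) :
    ‖((4 : ℂ)⁻¹ • (x + (p + p - 1) * x * (p + p - 1) + (a + star a) * x * (a + star a) +
      star ((p + p - 1) * (a + star a)) * x * ((p + p - 1) * (a + star a)))) ξ‖ ^ 2 ≤
      1 / 2 * ‖x ξ‖ ^ 2 + 2 * η := by
  have hap : a * p = a := pi_right hba hpp
  have h1p : (1 - p) * (1 - p) = 1 - p := by
    simp only [mul_sub, sub_mul, mul_one, one_mul, hpp]
    abel
  have hqb : star a * (1 - p) = star a := by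
    apply pi_right (a := star a) (q := 1 - p) _ h1p
    rw [star_star]
    exact hab
  have hbp : star a * p = 0 := by
    rw [mul_sub, mul_one] at hqb
    exact sub_eq_self.1 hqb
  have hpa : p * a = 0 := by
    have := congrArg star hbp
    rw [star_mul, star_star, hsp, star_zero] at this
    exact this
  have hpb : p * star a = star a := by
    have := congrArg star hap
    rw [star_mul, hsp] at this
    exact this
  have haa : a * a = 0 := by
    calc a * a = (a * p) * a := by rw [hap]
      _ = a * (p * a) := mul_assoc _ _ _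
      _ = 0 := by rw [hpa, mul_zero]
  set b := star a with hb
  have hbM : b ∈ M := star_mem ha
  have hbb : b * b = 0 := by
    have := congrArg star haa
    rw [star_mul, star_zero] at this
    exact this
  set s := p + p - 1 with hs
  set t := a + b with ht
  have hsM : s ∈ M := sub_mem (add_mem hp hp) (one_mem M)
  have htM : t ∈ M := add_mem ha hbM
  have hss : s * s = 1 := alg_ss hpp
  have htt : t * t = 1 := alg_tt hba hab haa hbb
  have hsts : star s = s := by rw [hs, star_sub, star_add, hsp, star_one]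
  have hstt : star t = t := by rw [ht, star_add, hb, star_star, add_comm]
  set x' := p * x * p + (1 - p) * x * (1 - p) with hx'
  have hx'M : x' ∈ M := add_mem (mul_mem (mul_mem hp hx) hp)
    (mul_mem (mul_mem (sub_mem (one_mem M) hp) hx) (sub_mem (one_mem M) hp))
  have hsx' : star x' = x' := by
    rw [hx']
    simp only [star_add, star_mul, star_sub, star_one, hsp, hsx, mul_assoc]
  have e1 : x + s * x * s = 2 • x' := alg_x x
  have e2 : t * x' * t = a * x * b + b * x * a := alg_t hap hpa hbp hpb x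
  have e3 : (4 : ℂ)⁻¹ • (x + s * x * s + t * x * t + star (s * t) * x * (s * t)) =
      (2 : ℂ)⁻¹ • (x' + t * x' * t) := by
    have h1 : x + s * x * s + t * x * t + star (s * t) * x * (s * t) =
        (x + s * x * s) + t * (x + s * x * s) * t := by
      rw [star_mul, hsts, hstt]
      noncomm_ring
    rw [h1, e1]
    have h2 : 2 • x' + t * (2 • x') * t = (2 : ℂ) • (x' + t * x' * t) := by
      rw [two_smul, two_smul]
      noncomm_ring
    rw [h2, smul_smul]
    norm_num
  rw [e3]
  -- norms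
  have n1 : ‖(t * x' * t) ξ‖ ^ 2 = ‖x' ξ‖ ^ 2 := norm_conj htr htM hx'M hstt htt
  have n2 : ‖x' ξ‖ ≤ ‖x ξ‖ := by
    have h1 : ‖(s * x * s) ξ‖ ^ 2 = ‖x ξ‖ ^ 2 := norm_conj htr hsM hx hsts hss
    have h2 : ‖(s * x * s) ξ‖ = ‖x ξ‖ := by
      have := abs_eq_abs.1 ((sq_eq_sq_iff_abs_eq_abs _ _).1 h1)
      rcases this with h | h
      · exact h
      · have h3 := norm_nonneg ((s * x * s) ξ)
        have h4 := norm_nonneg (x ξ)
        linarith
    have h3 : (2 : ℝ) * ‖x' ξ‖ ≤ ‖x ξ‖ + ‖(s * x * s) ξ‖ := by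
      have h4 : (2 : ℂ) • (x' ξ) = x ξ + (s * x * s) ξ := by
        have h5 := congrArg (fun A : H →L[ℂ] H => A ξ) e1
        simp only [two_smul] at h5 ⊢
        exact h5.symm
      have h6 : ‖(2 : ℂ) • (x' ξ)‖ = 2 * ‖x' ξ‖ := by
        rw [norm_smul]
        norm_num
      rw [← h6, h4]
      exact norm_add_le _ _
    linarith
  have n3 : (⟪x' ξ, (t * x' * t) ξ⟫_ℂ).re ≤ 4 * η := by
    rw [← tr_star_mul, hsx', e2, alg_prod hpa hpb, tr_add]
    have hq : 1 - p ∈ M := sub_mem (one_mem M) hp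
    have f1 : tr ξ (p * x * b * x * a) = tr ξ (x * b * x * a) := by
      have h1 : p * x * b * x * a = p * (x * b * x * a) := by noncomm_ring
      rw [h1, htr p hp _ (mul_mem (mul_mem (mul_mem hx hbM) hx) ha), mul_assoc (x * b * x), hap]
    have f2 : tr ξ ((1 - p) * x * a * x * b) = tr ξ (x * b * x * a) := by
      have h1 : (1 - p) * x * a * x * b = ((1 - p) * x * a * x) * b := rfl
      rw [h1, htr _ (mul_mem (mul_mem (mul_mem hq hx) ha) hx) b hbM]
      have h2 : b * ((1 - p) * x * a * x) = (b * x * a) * x := by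
        have h3 : b * (1 - p) = b := by rw [mul_sub, mul_one, hbp, sub_zero]
        calc b * ((1 - p) * x * a * x) = (b * (1 - p)) * x * a * x := by noncomm_ring
          _ = (b * x * a) * x := by rw [h3]
      rw [h2, htr _ (mul_mem (mul_mem hbM hx) ha) x hx, ← mul_assoc, ← mul_assoc]
    have f3 : tr ξ (p * x * p * (b * x * a)) = tr ξ (x * b * x * a) := by
      rw [← f1]
      congr 1
      calc p * x * p * (b * x * a) = p * x * (p * b) * x * a := by noncomm_ring
        _ = p * x * b * x * a := by rw [hpb]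
    rw [f3] at hη
    rw [f1, f2, Complex.add_re]
    linarith
  have n4 : ‖((2 : ℂ)⁻¹ • (x' + t * x' * t)) ξ‖ ^ 2 = 1 / 4 * ‖x' ξ + (t * x' * t) ξ‖ ^ 2 := by
    have h1 : ((2 : ℂ)⁻¹ • (x' + t * x' * t)) ξ = (2 : ℂ)⁻¹ • (x' ξ + (t * x' * t) ξ) := rfl
    rw [h1, norm_smul, mul_pow]
    norm_num
  rw [n4, @norm_add_sq ℂ, n1]
  have n5 : ‖x' ξ‖ ^ 2 ≤ ‖x ξ‖ ^ 2 := pow_le_pow_left₀ (norm_nonneg _) n2 2
  have n6 : RCLike.re ⟪x' ξ, (t * x' * t) ξ⟫_ℂ = (⟪x' ξ, (t * x' * t) ξ⟫_ℂ).re := rfl
  rw [n6]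
  linarith

theorem lf1 (h1 : S_HALF) (h2 : S_MIX) : S_LF1 := by
  intro H _ _ _ M ξ hM y hy hsy
  have htr : ∀ x ∈ M, ∀ y ∈ M, tr ξ (x * y) = tr ξ (y * x) := fun x hx y hy =>
    hM.trace.tracial ⟨x, hx⟩ ⟨y, hy⟩
  have hone : tr ξ 1 = 1 := hM.trace.one
  obtain ⟨p, hp, v, hv, hsp, hpp, htp, hvv, hvv'⟩ := h1 H M ξ hM
  have hvp : v * p = v := pi_right hvv hpp
  obtain ⟨c, hc⟩ : ∃ c : ℂ, c = tr ξ y := ⟨_, rfl⟩
  obtain ⟨x, hxdef⟩ : ∃ x, x = y - c • (1 : H →L[ℂ] H) := ⟨_, rfl⟩
  have hx : x ∈ M := by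
    rw [hxdef]
    exact sub_mem hy (smul_mem' M c (one_mem M))
  have hcr : star c = c := by
    have h3 : tr ξ (star y * 1) = ⟪y ξ, ξ⟫_ℂ := tr_star_mul ξ y 1
    rw [mul_one, hsy] at h3
    rw [hc, Complex.star_def]
    conv_rhs => rw [h3]
    rw [tr, inner_conj_symm]
  have hsx : star x = x := by
    rw [hxdef, star_sub, hsy, star_smul, star_one, hcr]
  have htx : tr ξ x = 0 := by
    rw [hxdef, tr_sub, tr_smul, hone, mul_one, ← hc, sub_self]
  have hq : 1 - p ∈ M := sub_mem (one_mem M) hp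
  -- the size of the error
  obtain ⟨η, hη0, hη⟩ : ∃ η : ℝ, 0 < η ∧ (x ≠ 0 → η ≤ 1 / 16 * ‖x ξ‖ ^ 2) := by
    by_cases hx0 : x = 0
    · exact ⟨1, one_pos, fun h => absurd hx0 h⟩
    · refine ⟨1 / 16 * ‖x ξ‖ ^ 2, ?_, fun _ => le_rfl⟩
      have : 0 < ‖x ξ‖ := by
        rw [norm_pos_iff]
        intro h0
        apply hx0
        have h3 := hM.trace.faithful ⟨x, hx⟩ (by
          show tr ξ (star x * x) = 0
          rw [tr_star_mul, h0, inner_zero_left])
        exact congrArg Subtype.val h3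
      positivity
  have hpv : p * star v = star v := by
    have := congrArg star hvp
    rw [star_mul, hsp] at this
    exact this
  obtain ⟨w, hw, hww, hww', hcross⟩ := h2 H M ξ hM p hp hsp hpp (p * x * p)
    (mul_mem (mul_mem hp hx) hp) (by rw [star_mul, star_mul, hsp, hsx, mul_assoc])
    (by
      calc p * (p * x * p) * p = (p * p) * x * (p * p) := by noncomm_ring
        _ = p * x * p := by rw [hpp])
    (star v * x * v) (mul_mem (mul_mem (star_mem hv) hx) hv)
    (by rw [star_mul, star_mul, star_star, hsx, mul_assoc])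
    (by
      calc p * (star v * x * v) * p = (p * star v) * x * (v * p) := by noncomm_ring
        _ = star v * x * v := by rw [hpv, hvp])
    η hη0
  have hpw : p * w = w := by
    have h3 : star w * p = star w := by
      apply pi_right (a := star w) (q := p) _ hpp
      rw [star_star]
      exact hww'
    have := congrArg star h3
    rw [star_mul, star_star, hsp] at this
    exact this
  -- the partial isometry
  obtain ⟨a, hadef⟩ : ∃ a, a = v * w := ⟨_, rfl⟩
  have ha : a ∈ M := by rw [hadef]; exact mul_mem hv hw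
  have hba : star a * a = p := by
    rw [hadef, star_mul]
    calc star w * star v * (v * w) = star w * ((star v * v) * w) := by noncomm_ring
      _ = p := by rw [hvv, hpw, hww]
  have hab : a * star a = 1 - p := by
    rw [hadef, star_mul]
    calc v * w * (star w * star v) = v * (w * star w) * star v := by noncomm_ring
      _ = 1 - p := by rw [hww', hvp, hvv']
  have hη' : (tr ξ (p * x * p * (star a * x * a))).re ≤ 2 * η := by
    have e1 : p * x * p * (star w * (star v * x * v) * w) = p * x * p * (star a * x * a) := by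
      rw [hadef, star_mul]
      noncomm_ring
    have e2 : tr ξ (p * x * p) = tr ξ (x * p) := by
      rw [mul_assoc, htr p hp _ (mul_mem hx hp), mul_assoc, hpp]
    have e3 : tr ξ (star v * x * v) = -tr ξ (x * p) := by
      rw [mul_assoc, htr _ (star_mem hv) _ (mul_mem hx hv), mul_assoc, hvv', mul_sub, mul_one,
        tr_sub, htx, zero_sub]
    have h3 : (tr ξ p).re * (tr ξ (p * x * p * (star w * (star v * x * v) * w))).re ≤
        (tr ξ (p * x * p)).re * (tr ξ (star v * x * v)).re + η := hcross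
    have h4 : (tr ξ p).re = 1 / 2 := by
      have : tr ξ p = 1 / 2 := htp
      rw [this]
      norm_num
    rw [h4, e1, e2, e3, Complex.neg_re] at h3
    nlinarith [sq_nonneg (tr ξ (x * p)).re]
  have hineq := ineq htr ha hp hx hsx hsp hpp hba hab hη'
  -- relations
  have hap : a * p = a := pi_right hba hpp
  have h1p : (1 - p) * (1 - p) = 1 - p := by
    simp only [mul_sub, sub_mul, mul_one, one_mul, hpp]
    abel
  have hqb : star a * (1 - p) = star a := by
    apply pi_right (a := star a) (q := 1 - p) _ h1p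
    rw [star_star]
    exact hab
  have hbp : star a * p = 0 := by
    rw [mul_sub, mul_one] at hqb
    exact sub_eq_self.1 hqb
  have hpa : p * a = 0 := by
    have := congrArg star hbp
    rw [star_mul, star_star, hsp, star_zero] at this
    exact this
  have hpb : p * star a = star a := by
    have := congrArg star hap
    rw [star_mul, hsp] at this
    exact this
  have haa : a * a = 0 := by
    calc a * a = (a * p) * a := by rw [hap]
      _ = a * (p * a) := mul_assoc _ _ _
      _ = 0 := by rw [hpa, mul_zero]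
  have hbb : star a * star a = 0 := by
    have := congrArg star haa
    rw [star_mul, star_zero] at this
    exact this
  have hsM : p + p - 1 ∈ M := sub_mem (add_mem hp hp) (one_mem M)
  have htM : a + star a ∈ M := add_mem ha (star_mem ha)
  have hss : (p + p - 1) * (p + p - 1) = 1 := alg_ss hpp
  have htt : (a + star a) * (a + star a) = 1 := alg_tt hba hab haa hbb
  have hst : (p + p - 1) * (a + star a) = -((a + star a) * (p + p - 1)) :=
    alg_st hap hpa hbp hpb
  have hsts : star (p + p - 1) = p + p - 1 := by rw [star_sub, star_add, hsp, star_one]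
  have hstt : star (a + star a) = a + star a := by rw [star_add, star_star, add_comm]
  have hM₁ : ∀ x : H →L[ℂ] H, x ∈ cent ((M.commutant : Set (H →L[ℂ] H)) ∪
      {p + p - 1, a + star a}) ↔ x ∈ M ∧ x * (p + p - 1) = (p + p - 1) * x ∧
        x * (a + star a) = (a + star a) * x := by
    intro x
    rw [mem_cent]
    constructor
    · intro h
      refine ⟨?_, ((h _ (Or.inr (Or.inl rfl))).1).symm, ((h _ (Or.inr (Or.inr rfl))).1).symm⟩
      rw [← VonNeumannAlgebra.commutant_commutant M, VonNeumannAlgebra.mem_commutant_iff]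
      intro g hg
      exact (h g (Or.inl hg)).1
    · rintro ⟨h1, h2, h3⟩ g hg
      rcases hg with hg | hg | hg
      · rw [← VonNeumannAlgebra.commutant_commutant M, VonNeumannAlgebra.mem_commutant_iff] at h1
        exact ⟨h1 g hg, h1 (star g) (star_mem hg)⟩
      · rw [hg, hsts]
        exact ⟨h2.symm, h2.symm⟩
      · rw [hg, hstt]
        exact ⟨h3.symm, h3.symm⟩
  refine ⟨p + p - 1, hsM, a + star a, htM, _, hsts, hstt, hss, htt, hst, hM₁,
    factor hM hsM htM hss htt hst hM₁, ?_⟩
  -- the inequality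
  have hyx : y = x + c • (1 : H →L[ℂ] H) := by rw [hxdef, sub_add_cancel]
  have hcc : ⟪ξ, y ξ⟫_ℂ = c := hc.symm
  rw [hcc]
  have e1 : y - c • (1 : H →L[ℂ] H) = x := hxdef.symm
  set s := p + p - 1 with hsdef
  set t := a + star a with htdef
  have e2 : (4 : ℂ)⁻¹ • (y + s * y * s + t * y * t + star (s * t) * y * (s * t)) -
      c • (1 : H →L[ℂ] H) =
      (4 : ℂ)⁻¹ • (x + s * x * s + t * x * t + star (s * t) * x * (s * t)) := by
    have h3 : s * (c • (1 : H →L[ℂ] H)) * s = c • 1 := by
      rw [mul_smul_comm, mul_one, smul_mul_assoc, hss]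
    have h4 : t * (c • (1 : H →L[ℂ] H)) * t = c • 1 := by
      rw [mul_smul_comm, mul_one, smul_mul_assoc, htt]
    have h5 : star (s * t) * (c • (1 : H →L[ℂ] H)) * (s * t) = c • 1 := by
      rw [mul_smul_comm, mul_one, smul_mul_assoc, star_mul, hsts, hstt]
      congr 1
      calc t * s * (s * t) = t * (s * s) * t := by noncomm_ring
        _ = 1 := by rw [hss, mul_one, htt]
    rw [hyx]
    simp only [mul_add, add_mul, h3, h4, h5]
    rw [sub_eq_iff_eq_add]
    have h6 : x + c • (1 : H →L[ℂ] H) + (s * x * s + c • 1) + (t * x * t + c • 1) +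
        (star (s * t) * x * (s * t) + c • 1) =
        (x + s * x * s + t * x * t + star (s * t) * x * (s * t)) + (4 : ℂ) • (c • 1) := by
      have : (4 : ℂ) • (c • (1 : H →L[ℂ] H)) = c • 1 + c • 1 + c • 1 + c • 1 := by
        rw [smul_smul, ← add_smul, ← add_smul, ← add_smul]
        congr 1
        ring
      rw [this]
      abel
    rw [h6, smul_add, smul_smul (4 : ℂ)⁻¹ 4]
    norm_num
  rw [e2, e1]
  by_cases hx0 : x = 0
  · rw [hx0]
    simp
  · have := hη hx0
    refine hineq.trans ?_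
    have h7 : 0 ≤ ‖x ξ‖ ^ 2 := sq_nonneg _
    linarith

end Pool.Agent.W177.KKS
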